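import Pool.Agent.Helper16.KL.P0

set_option autoImplicit false
set_option linter.unusedSectionVars false
set_option linter.style.haveILetI false

/-!
Project KL, KL-12: the closure over `k(t)` of a point with coordinates over which `t` is
transcendental is determined by its closure over `k`.
-/

namespace Pool.Agent.Helper16.KLP

open Pool.Agent.Helper16 Pool.Agent.HC Pool.Agent.Helper1.KL

theorem trdeg_add_fields (F E L : Type) [Field F] [Field E] [Field L] [Algebra F E] [Algebra E L]
    [Algebra F L] [IsScalarTower F E L] :
    Algebra.trdeg F E + Algebra.trdeg E L = Algebra.trdeg F L := trdeg_add_eq F E (A := L)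

theorem trdeg_adjoin_transc {E L : Type} [Field E] [Field L] [Algebra E L] {x : L}
    (hx : Transcendental E x) : Algebra.trdeg E (IntermediateField.adjoin E {x}) = 1 := by
  rw [← (RatFunc.algEquivOfTranscendental (K := E) x hx).trdeg_eq, trdeg_ratFunc]

theorem trdeg_adjoin_alg {E L : Type} [Field E] [Field L] [Algebra E L] {x : L}
    (hx : IsAlgebraic E x) : Algebra.trdeg E (IntermediateField.adjoin E {x}) = 0 := by
  have h1 : Algebra.IsAlgebraic E (IntermediateField.adjoin E {x}) :=
    IntermediateField.isAlgebraic_adjoin (by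
      intro a ha
      rw [Set.mem_singleton_iff.1 ha]
      exact hx.isIntegral)
  exact trdeg_eq_zero

section sets

variable {k : Type} [Field k] {N : Type} [Field N] [Algebra k N] [Algebra (RatFunc k) N]
  [IsScalarTower k (RatFunc k) N]

theorem adjoinT_restrict (S : Set N) :
    (IntermediateField.adjoin (IntermediateField.adjoin k S) {tv k N}).restrictScalars k =
      (IntermediateField.adjoin (RatFunc k) S).restrictScalars k := by
  have h1 : (IntermediateField.adjoin (IntermediateField.adjoin k S) {tv k N}).restrictScalars k =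
      IntermediateField.adjoin k (S ∪ {tv k N}) := by
    exact IntermediateField.adjoin_adjoin_left k S {tv k N}
  rw [h1]
  refine le_antisymm ?_ ?_
  · rw [IntermediateField.adjoin_le_iff]
    rintro a (ha | rfl)
    · exact IntermediateField.subset_adjoin (RatFunc k) S ha
    · exact (IntermediateField.adjoin (RatFunc k) S).algebraMap_mem RatFunc.X
  · intro a ha
    have ha' : a ∈ IntermediateField.adjoin (RatFunc k) S := ha
    induction ha' using IntermediateField.adjoin_induction with
    | mem y hy => exact IntermediateField.subset_adjoin _ _ (Or.inl hy)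
    | algebraMap y => exact algebraMap_mem_adjoin_tv y _
    | add y z hy hz ihy ihz => exact add_mem (ihy hy) (ihz hz)
    | mul y z hy hz ihy ihz => exact mul_mem (ihy hy) (ihz hz)
    | inv y hy ihy => exact inv_mem (ihy hy)

theorem trdeg_tower_set (S : Set N) :
    Algebra.trdeg (RatFunc k) (IntermediateField.adjoin (RatFunc k) S) + 1 =
      Algebra.trdeg k (IntermediateField.adjoin k S) +
        Algebra.trdeg (IntermediateField.adjoin k S)
          (IntermediateField.adjoin (IntermediateField.adjoin k S) {tv k N}) := by
  have h1 := trdeg_add_fields k (RatFunc k) (IntermediateField.adjoin (RatFunc k) S)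
  rw [trdeg_ratFunc] at h1
  have h2 := trdeg_add_fields k (IntermediateField.adjoin k S)
    (IntermediateField.adjoin (IntermediateField.adjoin k S) {tv k N})
  rw [add_comm, h1, h2]
  exact (IntermediateField.equivOfEq (adjoinT_restrict S)).symm.trdeg_eq

theorem trdeg_const_set (S : Set N)
    (ht : Transcendental (IntermediateField.adjoin k S) (tv k N)) :
    Algebra.trdeg (RatFunc k) (IntermediateField.adjoin (RatFunc k) S) =
      Algebra.trdeg k (IntermediateField.adjoin k S) := by
  have h := trdeg_tower_set (k := k) S
  rw [trdeg_adjoin_transc ht] at h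
  exact Cardinal.add_one_inj.1 h

theorem trdeg_of_alg_set (S : Set N)
    (ht : IsAlgebraic (IntermediateField.adjoin k S) (tv k N)) :
    Algebra.trdeg (RatFunc k) (IntermediateField.adjoin (RatFunc k) S) + 1 =
      Algebra.trdeg k (IntermediateField.adjoin k S) := by
  rw [trdeg_tower_set (k := k) S, trdeg_adjoin_alg ht, add_zero]

/-- If `k(S)` has transcendence degree at most `r` and `K(S)` has transcendence degree `r` over
`K = k(t)`, then `t` is transcendental over `k(S)`. -/
theorem transc_of_trdeg (S : Set N) {r : ℕ}
    (h1 : Algebra.trdeg k (IntermediateField.adjoin k S) ≤ r)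
    (h2 : Algebra.trdeg (RatFunc k) (IntermediateField.adjoin (RatFunc k) S) = r) :
    Transcendental (IntermediateField.adjoin k S) (tv k N) ∧
      Algebra.trdeg k (IntermediateField.adjoin k S) = r := by
  have ht : Transcendental (IntermediateField.adjoin k S) (tv k N) := by
    intro hc
    have h3 := trdeg_of_alg_set S hc
    rw [← h3, h2] at h1
    have h4 : ((r + 1 : ℕ) : Cardinal) ≤ (r : ℕ) := by
      push_cast
      exact h1
    rw [Nat.cast_le] at h4
    omega
  exact ⟨ht, by rw [← trdeg_const_set S ht, h2]⟩

end sets

section clear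

variable {k σ : Type} [Field k]

theorem clear_denom' (F : MvPolynomial σ (RatFunc k)) :
    ∃ (q : Polynomial k) (B : ℕ) (G : ℕ → MvPolynomial σ k), q ≠ 0 ∧
      MvPolynomial.C (algebraMap (Polynomial k) (RatFunc k) q) * F =
        ∑ n ∈ Finset.range B, MvPolynomial.C (RatFunc.X ^ n) *
          MvPolynomial.map (algebraMap k (RatFunc k)) (G n) := by
  classical
  obtain ⟨q, hq⟩ := IsLocalization.exist_integer_multiples (nonZeroDivisors (Polynomial k))
    F.support (fun e => F.coeff e)
  choose! p hp using hq
  set G : ℕ → MvPolynomial σ k := fun n =>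
    ∑ e ∈ F.support, MvPolynomial.monomial e ((p e).coeff n) with hG
  set B := (F.support.sup fun e => (p e).natDegree) + 1 with hB
  have hpe : ∀ e ∈ F.support, algebraMap (Polynomial k) (RatFunc k) (p e) =
      ∑ n ∈ Finset.range B, algebraMap k (RatFunc k) ((p e).coeff n) * RatFunc.X ^ n := by
    intro e he
    conv_lhs => rw [Polynomial.as_sum_range' (p e) B
      (Nat.lt_succ_of_le (Finset.le_sup (f := fun e => (p e).natDegree) he))]
    rw [map_sum]
    refine Finset.sum_congr rfl fun n _ => ?_
    rw [← Polynomial.C_mul_X_pow_eq_monomial, map_mul, map_pow, RatFunc.algebraMap_X,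
      RatFunc.algebraMap_C]
    rfl
  refine ⟨q, B, G, nonZeroDivisors.coe_ne_zero q, ?_⟩
  ext e
  rw [MvPolynomial.coeff_C_mul, MvPolynomial.coeff_sum]
  simp only [MvPolynomial.coeff_C_mul, MvPolynomial.coeff_map, hG, MvPolynomial.coeff_sum,
    MvPolynomial.coeff_monomial, Finset.sum_ite_eq']
  by_cases he : e ∈ F.support
  · have h1 := hp e he
    rw [Algebra.smul_def] at h1
    rw [← h1, hpe e he]
    refine Finset.sum_congr rfl fun n _ => ?_
    rw [if_pos he, mul_comm]
  · rw [MvPolynomial.notMem_support_iff.1 he, mul_zero]
    simp only [if_neg he, map_zero, mul_zero, Finset.sum_const_zero]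

variable {N : Type} [Field N] [Algebra k N] [Algebra (RatFunc k) N] [IsScalarTower k (RatFunc k) N]

theorem eval_iff_of_transc (y : σ → N) {E : IntermediateField k N} (hE : ∀ j, y j ∈ E)
    (ht : Transcendental E (tv k N)) {F : MvPolynomial σ (RatFunc k)} {q : Polynomial k}
    (hq : q ≠ 0) {B : ℕ} {G : ℕ → MvPolynomial σ k}
    (h : MvPolynomial.C (algebraMap (Polynomial k) (RatFunc k) q) * F =
        ∑ n ∈ Finset.range B, MvPolynomial.C (RatFunc.X ^ n) *
          MvPolynomial.map (algebraMap k (RatFunc k)) (G n)) :
    MvPolynomial.aeval y F = 0 ↔ ∀ n ∈ Finset.range B, MvPolynomial.aeval y (G n) = 0 := by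
  rw [clear_eval_iff hq h y]
  constructor
  · intro h1
    let yE : σ → E := fun j => ⟨y j, hE j⟩
    have hmem : ∀ P : MvPolynomial σ k, ((MvPolynomial.aeval yE P : E) : N) =
        MvPolynomial.aeval y P := by
      intro P
      have h2 : MvPolynomial.aeval (fun j => E.val (yE j)) P =
          E.val (MvPolynomial.aeval yE P) := by
        rw [← MvPolynomial.comp_aeval_apply]
      exact h2.symm
    let a : ℕ → E := fun n => MvPolynomial.aeval yE (G n)
    have h2 : Polynomial.aeval (tv k N) (∑ n ∈ Finset.range B, Polynomial.C (a n) *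
        Polynomial.X ^ n) = 0 := by
      rw [map_sum, ← h1]
      refine Finset.sum_congr rfl fun n _ => ?_
      rw [map_mul, Polynomial.aeval_C, map_pow, Polynomial.aeval_X, mul_comm]
      congr 1
      exact hmem (G n)
    have h3 : (∑ n ∈ Finset.range B, Polynomial.C (a n) * Polynomial.X ^ n) = 0 := by
      by_contra h4
      exact ht ⟨_, h4, h2⟩
    intro n hn
    have h4 := congrArg (fun P => Polynomial.coeff P n) h3
    simp only [Polynomial.finsetSum_coeff, Polynomial.coeff_C_mul_X_pow,
      Polynomial.coeff_zero] at h4
    rw [Finset.sum_eq_single n] at h4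
    · rw [if_pos rfl] at h4
      rw [← hmem, ]
      exact congrArg Subtype.val h4
    · intro m _ hmn
      rw [if_neg (Ne.symm hmn)]
    · intro h; exact absurd hn h
  · intro h1
    refine Finset.sum_eq_zero fun n hn => ?_
    rw [h1 n hn, mul_zero]

/-- Two points with the same ideal over `k` have the same ideal over `k(t)`. -/
theorem ker_eq_of_transc {N' : Type} [Field N'] [Algebra k N'] [Algebra (RatFunc k) N']
    [IsScalarTower k (RatFunc k) N'] (y : σ → N) {E : IntermediateField k N} (hE : ∀ j, y j ∈ E)
    (ht : Transcendental E (tv k N)) (y' : σ → N') {E' : IntermediateField k N'}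
    (hE' : ∀ j, y' j ∈ E') (ht' : Transcendental E' (tv k N'))
    (h : ∀ P : MvPolynomial σ k, MvPolynomial.aeval y P = 0 ↔ MvPolynomial.aeval y' P = 0) :
    RingHom.ker (MvPolynomial.aeval (R := RatFunc k) y) =
      RingHom.ker (MvPolynomial.aeval (R := RatFunc k) y') := by
  ext F
  rw [RingHom.mem_ker, RingHom.mem_ker]
  obtain ⟨q, B, G, hq, hF⟩ := clear_denom' F
  rw [eval_iff_of_transc y hE ht hq hF, eval_iff_of_transc y' hE' ht' hq hF]
  exact forall_congr' fun n => imp_congr_right fun _ => h (G n)

end clear

end Pool.Agent.Helper16.KLP
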