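import Pool.Agent.Helper1.KL.GeneralB
import Pool.Agent.Helper16.KL.KeyT

set_option autoImplicit false
set_option linter.unusedSectionVars false
set_option linter.style.haveILetI false

/-!
Project KL, KL-12: the map `Ψ`.
-/

namespace Pool.Agent.Helper16.KLP

open Pool.Agent.Helper16 Pool.Agent.HC Pool.Agent.Helper1.KL

variable {k : Type} [Field k] {p : ℕ} [Fact p.Prime] [CharP k p] {n : ℕ} {b : Fin n → k} {r : ℕ}

section one

variable {N : Type} [Field N] [Algebra k N] [Algebra (RatFunc k) N] [IsScalarTower k (RatFunc k) N]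

/-- At a vertical point the variable `t` is transcendental over the field of the `x i`. -/
theorem transc_of_vert (hb : ∀ i, b i ≠ 0) {z : Fin n ⊕ Fin n → Option N} (hz : XV p b N z)
    (hr : Algebra.trdeg (RatFunc k) (fld (RatFunc k) z) = r) (hV : Vert k r z) :
    Transcendental (fld k (xpt z)) (tv k N) ∧ Algebra.trdeg k (fld k (xpt z)) = r :=
  transc_of_trdeg {a | ∃ j, xpt z j = some a} hV ((trdeg_xpt hz hb).trans hr)

theorem cast_coef (τ : Fin n → Option (ZMod p)) (i : Fin n) :
    ((coef τ i : ℕ) : N) = ((RT τ i).cast : N) := by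
  unfold coef RT
  exact ZMod.natCast_val _

theorem sum_coef_eq (τ : Fin n → Option (ZMod p)) (z : Fin n ⊕ Fin n → Option N) :
    ∑ i, (coef τ i : N) * (xpt z i).getD 0 = Xc (RT τ) z := by
  unfold Xc
  refine Finset.sum_congr rfl fun i _ => ?_
  rw [cast_coef]
  rfl

theorem Bfun_eq (τ : Fin n → Option (ZMod p)) (z : Fin n ⊕ Fin n → Option N) :
    Bfun b τ (xpt z) = Bc b (RT τ) z := by
  unfold Bfun Bc
  refine Finset.sum_congr rfl fun i _ => ?_
  rw [cast_coef, IsScalarTower.algebraMap_apply k (RatFunc k) N]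
  rfl

theorem mem_IT {τ : Fin n → Option (ZMod p)} {i : Fin n} : i ∈ IT τ ↔ τ i ≠ none := by
  unfold IT
  rw [Finset.mem_filter_univ]

/-- The point `x` of a good point. -/
theorem AV_of_good (hb : ∀ i, b i ≠ 0) {τ : Fin n → Option (ZMod p)}
    {z : Fin n ⊕ Fin n → Option N} (h : Good p b r (IT τ) z) (hX : Xc (RT τ) z = 0) :
    AV (k := k) τ N (xpt z) := by
  refine ⟨fun i hi => h.inf i fun h0 => mem_IT.1 h0 hi, fun i hi => ?_, ?_⟩
  · obtain ⟨h1, -, h2, -⟩ := h.of_mem hb (mem_IT.2 hi)
    exact ⟨xc z i, h2, h1⟩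
  · rw [sum_coef_eq]
    exact hX

theorem YV_of_good (hb : ∀ i, b i ≠ 0) {τ : Fin n → Option (ZMod p)}
    {z : Fin n ⊕ Fin n → Option N} (h : Good p b r (IT τ) z) (hX : Xc (RT τ) z = 0)
    (hB : Bc b (RT τ) z = 0) : YV b τ N (xpt z) :=
  ⟨AV_of_good hb h hX, by rw [Bfun_eq]; exact hB⟩

variable {z : Fin n ⊕ Fin n → Option N}

theorem ec_mem_fld (ρ : Fin n → ZMod p) (z : Fin n ⊕ Fin n → Option N) :
    ec ρ z ∈ fld (RatFunc k) z := by
  unfold ec
  refine sum_mem fun i _ => mul_mem ?_ (getD_mem_fld z (Sum.inr i))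
  have := charP_alg (k := k) (p := p) N
  rw [← ZMod.natCast_val]
  exact natCast_mem _ _

theorem fld_red_le (ρ : Fin n → ZMod p) (z : Fin n ⊕ Fin n → Option N) :
    fld (RatFunc k) (red ρ z) ≤ fld (RatFunc k) z := by
  rw [fld_eq_range (red ρ z), IntermediateField.adjoin_le_iff]
  rintro _ ⟨i | i, rfl⟩
  · exact getD_mem_fld z (Sum.inl i)
  · exact ec_mem_fld ρ z

theorem fld_xpt_le_red (ρ : Fin n → ZMod p) (z : Fin n ⊕ Fin n → Option N) :
    fld (RatFunc k) (xpt z) ≤ fld (RatFunc k) (red ρ z) := by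
  rw [fld_eq_range (xpt z), IntermediateField.adjoin_le_iff]
  rintro _ ⟨i, rfl⟩
  exact getD_mem_fld (red ρ z) (Sum.inl i)

theorem fld_red_eq {ρ : Fin n → ZMod p} (h : ec ρ z = 1) :
    fld (RatFunc k) (red ρ z) = fld (RatFunc k) (xpt z) := by
  refine le_antisymm ?_ (fld_xpt_le_red ρ z)
  rw [fld_eq_range (red ρ z), IntermediateField.adjoin_le_iff]
  rintro _ ⟨i | i, rfl⟩
  · exact getD_mem_fld (xpt z) i
  · change ec ρ z ∈ _
    rw [h]
    exact one_mem _

/-- The field of a point is finite over the field of the reduced point. -/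
theorem finite_red (hb : ∀ i, b i ≠ 0) (hz : XV p b N z) (ρ : Fin n → ZMod p) :
    FiniteDimensional (fld (RatFunc k) (red ρ z))
      (IntermediateField.extendScalars (fld_red_le (k := k) ρ z)) := by
  set E := fld (RatFunc k) (red ρ z) with hE
  have h1 : IntermediateField.extendScalars (fld_red_le (k := k) ρ z) =
      IntermediateField.adjoin E (Set.range fun j => (z j).getD 0) := by
    apply le_antisymm
    · intro a ha
      have ha' : a ∈ fld (RatFunc k) z := ha
      rw [fld_eq_range] at ha'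
      have h2 : IntermediateField.adjoin (RatFunc k) (Set.range fun j => (z j).getD 0) ≤
          (IntermediateField.adjoin E (Set.range fun j => (z j).getD 0)).restrictScalars
            (RatFunc k) := by
        rw [IntermediateField.adjoin_le_iff]
        exact IntermediateField.subset_adjoin E _
      exact h2 ha'
    · rw [IntermediateField.adjoin_le_iff]
      rintro _ ⟨j, rfl⟩
      exact getD_mem_fld z j
  rw [h1]
  refine IntermediateField.finiteDimensional_adjoin fun a ha => ?_
  obtain ⟨j, rfl⟩ := ha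
  rcases j with i | i
  · exact isIntegral_algebraMap (R := E) (A := N)
      (x := ⟨(z (Sum.inl i)).getD 0, getD_mem_fld (red ρ z) (Sum.inl i)⟩)
  · exact isIntegral_yc hz hb E i (getD_mem_fld (red ρ z) (Sum.inl i))

theorem relfinrank_ne_zero (hb : ∀ i, b i ≠ 0) (hz : XV p b N z) (ρ : Fin n → ZMod p) :
    (fld (RatFunc k) (red ρ z)).relfinrank (fld (RatFunc k) z) ≠ 0 := by
  rw [IntermediateField.relfinrank_eq_finrank_of_le (fld_red_le (k := k) ρ z)]
  have := finite_red hb hz ρ
  exact Module.finrank_pos.ne'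

end one

section two

variable {N N' : Type} [Field N] [Algebra k N] [Algebra (RatFunc k) N]
  [IsScalarTower k (RatFunc k) N] [Field N'] [Algebra k N'] [Algebra (RatFunc k) N']
  [IsScalarTower k (RatFunc k) N']

/-- The closure over `k` of the point `x` determines the closure of the reduced point. -/
theorem key_red_of_key {z : Fin n ⊕ Fin n → Option N} {z' : Fin n ⊕ Fin n → Option N'}
    {ρ : Fin n → ZMod p} (ht : Transcendental (fld k (xpt z)) (tv k N))
    (ht' : Transcendental (fld k (xpt z')) (tv k N')) (he : ec ρ z = 1) (he' : ec ρ z' = 1)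
    (h : key k (xpt z) = key k (xpt z')) :
    key (RatFunc k) (red ρ z) = key (RatFunc k) (red ρ z') := by
  obtain ⟨h1, h2⟩ := (key_eq_iff _ _).1 h
  refine Prod.ext ?_ ?_
  · change {j | red ρ z j ≠ none} = {j | red ρ z' j ≠ none}
    ext j
    rcases j with i | i
    · exact not_iff_not.2 (h1 i)
    · simp [red]
  · change RingHom.ker (MvPolynomial.aeval (R := RatFunc k) fun j => (red ρ z j).getD 0) =
      RingHom.ker (MvPolynomial.aeval (R := RatFunc k) fun j => (red ρ z' j).getD 0)
    refine ker_eq_of_transc _ (E := fld k (xpt z)) ?_ ht _ (E' := fld k (xpt z')) ?_ ht' ?_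
    · rintro (i | i)
      · exact getD_mem_fld (xpt z) i
      · change ec ρ z ∈ _
        rw [he]
        exact one_mem _
    · rintro (i | i)
      · exact getD_mem_fld (xpt z') i
      · change ec ρ z' ∈ _
        rw [he']
        exact one_mem _
    · intro P
      let s : Fin n ⊕ Unit → MvPolynomial (Fin n) k :=
        Sum.elim (fun i => MvPolynomial.X i) (fun _ => 1)
      have key1 : ∀ {A : Type} [Field A] [Algebra k A] [Algebra (RatFunc k) A]
          (w : Fin n ⊕ Fin n → Option A), ec ρ w = 1 →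
          MvPolynomial.aeval (fun j => (red ρ w j).getD 0) P =
            MvPolynomial.aeval (fun j => (xpt w j).getD 0) (MvPolynomial.aeval s P) := by
        intro A _ _ _ w hw
        rw [MvPolynomial.comp_aeval_apply]
        congr 1
        congr 1
        funext j
        rcases j with i | i
        · change (xpt w i).getD 0 = MvPolynomial.aeval (fun j => (xpt w j).getD 0)
            (MvPolynomial.X i)
          rw [MvPolynomial.aeval_X]
        · change ec ρ w = MvPolynomial.aeval (fun j => (xpt w j).getD 0) 1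
          rw [hw, map_one]
      rw [key1 z he, key1 z' he']
      exact h2 _

end two

/-! ### The map -/

/-- The possible values of the map. -/
def PsiVal (k : Type) [Field k] (p : ℕ) [Fact p.Prime] [CharP k p] {n : ℕ} (b : Fin n → k) (r : ℕ)
    (τ : Fin n → Option (ZMod p)) (q : Key k (Fin n)) (s : QX p b r) : Prop :=
  ∃ (N : Type) (_ : Field N) (_ : Algebra k N) (_ : Algebra (RatFunc k) N)
    (_ : IsScalarTower k (RatFunc k) N) (z : Fin n ⊕ Fin n → Option N), Good p b r (IT τ) z ∧
    Vert k r z ∧ ec (RT τ) z = 1 ∧ key k (xpt z) = q ∧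
    s = (((fld (RatFunc k) (red (RT τ) z)).relfinrank (fld (RatFunc k) z) : ℕ) : ℚ)⁻¹ •
      SS p b r (RT τ) z

theorem PsiVal.unique (hb : ∀ i, b i ≠ 0) (hS : ModS k p b r) {τ : Fin n → Option (ZMod p)}
    {q : Key k (Fin n)} {s s' : QX p b r} (h : PsiVal k p b r τ q s)
    (h' : PsiVal k p b r τ q s') : s = s' := by
  obtain ⟨N, _, _, _, _, z, hz, hV, he, rfl, rfl⟩ := h
  obtain ⟨N', _, _, _, _, z', hz', hV', he', hq, rfl⟩ := h'
  have h1 := key_red_of_key (transc_of_vert hb hz.mem hz.dim hV).1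
    (transc_of_vert hb hz'.mem hz'.dim hV').1 he he' hq.symm
  obtain ⟨h2, h3⟩ := hS N N' z z' (RT τ) hz.mem hz'.mem h1
  rw [h2, h3]

open scoped Classical in
/-- The map on integral subschemes. -/
noncomputable def psi (k : Type) [Field k] (p : ℕ) [Fact p.Prime] [CharP k p] {n : ℕ}
    (b : Fin n → k) (r : ℕ) (τ : Fin n → Option (ZMod p)) (q : Key k (Fin n)) : QX p b r :=
  if h : ∃ s, PsiVal k p b r τ q s then h.choose else 0

theorem SS_eq_psi (hb : ∀ i, b i ≠ 0) (hS : ModS k p b r) {τ : Fin n → Option (ZMod p)}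
    {N : Type} [Field N] [Algebra k N] [Algebra (RatFunc k) N] [IsScalarTower k (RatFunc k) N]
    {z : Fin n ⊕ Fin n → Option N} (hz : Good p b r (IT τ) z) (hV : Vert k r z)
    (he : ec (RT τ) z = 1) :
    SS p b r (RT τ) z =
      (((fld (RatFunc k) (red (RT τ) z)).relfinrank (fld (RatFunc k) z) : ℕ) : ℚ) •
        psi k p b r τ (key k (xpt z)) := by
  have h1 : PsiVal k p b r τ (key k (xpt z))
      ((((fld (RatFunc k) (red (RT τ) z)).relfinrank (fld (RatFunc k) z) : ℕ) : ℚ)⁻¹ •
        SS p b r (RT τ) z) :=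
    ⟨N, inferInstance, inferInstance, inferInstance, inferInstance, z, hz, hV, he, rfl, rfl⟩
  have h2 : ∃ s, PsiVal k p b r τ (key k (xpt z)) s := ⟨_, h1⟩
  rw [psi, dif_pos h2, PsiVal.unique hb hS h2.choose_spec h1, smul_smul, mul_inv_cancel₀, one_smul]
  exact_mod_cast relfinrank_ne_zero hb hz.mem (RT τ)

/-- The map `Ψ`. -/
noncomputable def Psi (k : Type) [Field k] (p : ℕ) [Fact p.Prime] [CharP k p] {n : ℕ}
    (b : Fin n → k) (r : ℕ) (τ : Fin n → Option (ZMod p)) :
    (Key k (Fin n) →₀ ℚ) →ₗ[ℚ] QX p b r :=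
  Finsupp.linearCombination ℚ (psi k p b r τ)

theorem Psi_single (τ : Fin n → Option (ZMod p)) (q : Key k (Fin n)) (c : ℚ) :
    Psi k p b r τ (Finsupp.single q c) = c • psi k p b r τ q := by
  rw [Psi, Finsupp.linearCombination_single]

/-- The first property of `Ψ`. -/
theorem Psi_first (hb : ∀ i, b i ≠ 0) (hS : ModS k p b r) (τ : Fin n → Option (ZMod p))
    {N : Type} [Field N] [Algebra k N] [Algebra (RatFunc k) N] [IsScalarTower k (RatFunc k) N]
    {z : Fin n ⊕ Fin n → Option N} (hz : Good p b r (IT τ) z) (hV : Vert k r z)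
    (hX : Xc (RT τ) z = 0) (hB : Bc b (RT τ) z = 0) (he : ec (RT τ) z = 1) :
    YV b τ N (xpt z) ∧ Algebra.trdeg k (fld k (xpt z)) = r ∧
      SS p b r (RT τ) z ∈
        Submodule.span ℚ {Psi k p b r τ (Finsupp.single (key k (xpt z)) 1)} := by
  refine ⟨YV_of_good hb hz hX hB, (transc_of_vert hb hz.mem hz.dim hV).2, ?_⟩
  rw [SS_eq_psi hb hS hz hV he, Psi_single, one_smul]
  exact Submodule.smul_mem _ _ (Submodule.mem_span_singleton_self _)

end Pool.Agent.Helper16.KLP
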