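import Pool.Agent.Helper16.KL.Sum

set_option autoImplicit false
set_option linter.unusedSectionVars false
set_option linter.style.haveILetI false

/-!
Project KL, KL-12: the properties of `Ψ`.
-/

namespace Pool.Agent.Helper16.KLP

open Pool.Agent.Helper16 Pool.Agent.HC Pool.Agent.Helper1.KL

variable {k : Type} [Field k] {p : ℕ} [Fact p.Prime] [CharP k p] {n : ℕ} {b : Fin n → k} {r : ℕ}

theorem psi_eq_zero {τ : Fin n → Option (ZMod p)} (hτ : RT τ = 0) (q : Key k (Fin n)) :
    psi k p b r τ q = 0 := by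
  rw [psi, dif_neg]
  rintro ⟨s, N, _, _, _, _, z, -, -, he, -⟩
  rw [hτ] at he
  unfold ec at he
  simp at he

section main

variable {N L M : Type} [Field N] [Field L] [Field M]
  [Algebra k N] [Algebra k L] [Algebra k M] [Algebra N L] [Algebra N M] [Algebra L M]
  [Algebra (RatFunc k) L] [Algebra (RatFunc k) M] [IsScalarTower k N L]
  [IsScalarTower k (RatFunc k) L] [IsScalarTower k N M] [IsScalarTower k (RatFunc k) M]
  [IsScalarTower N L M] [IsScalarTower (RatFunc k) L M] [IsScalarTower k L M]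
  [FiniteDimensional L M] [Algebra.IsSeparable L M]
  {τ : Fin n → Option (ZMod p)} {x : Fin n → Option N} {z : Fin n ⊕ Fin n → Option M}

/-- Relations on `Y`. -/
theorem Dt.rel_Y (D : Dt b r τ N L M x z) (hS : ModS k p b r) (hEF : StEF) {f : N}
    (hf : f ≠ 0) {S : Finset (Place k N)}
    (hSm : ∀ w, w ∈ S ↔ w.ord f ≠ 0 ∧ YV b τ w.resField (spec w x) ∧
      Algebra.trdeg k (fld k (spec w x)) = r) (hB : Bfun b τ x = 0) (he : ec (RT τ) z = 1) :
    Psi k p b r τ (∑ w ∈ S, Finsupp.single (key k (spec w x))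
      ((w.ord f * Module.finrank (fld k (spec w x)) w.resField : ℤ) : ℚ)) ∈
        GG p b r (IT τ).card := by
  refine D.rel_image hS hEF hf hSm {0} (fun _ => algebraMap N M f) (fun _ => 0)
    (fun _ _ => (map_ne_zero _).2 hf) ?_ ?_
  · intro c _ v hv hG
    refine ⟨rfl, ?_, ?_⟩
    · rw [(D.Bc_spec hG).2, hB, map_zero, v.res_zero]
    · rw [Helper57.KL.tr_zero, (D.ec_spec hG).2, he, v.res_one]
  · intro v hG hv _
    exact ⟨0, Finset.mem_singleton_self _, hv, fun c' hc' _ => Finset.mem_singleton.1 hc'⟩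

/-- The divisors of `B`. -/
theorem Dt.rel_B (D : Dt b r τ N L M x z) (hS : ModS k p b r) (hEF : StEF) (hτ : RT τ ≠ 0) {f : N}
    (hf : f ≠ 0) {S : Finset (Place k N)}
    (hSm : ∀ w, w ∈ S ↔ w.ord f ≠ 0 ∧ YV b τ w.resField (spec w x) ∧
      Algebra.trdeg k (fld k (spec w x)) = r) (hB : f = Bfun b τ x) :
    Psi k p b r τ (∑ w ∈ S, Finsupp.single (key k (spec w x))
      ((w.ord f * Module.finrank (fld k (spec w x)) w.resField : ℤ) : ℚ)) ∈
        GG p b r (IT τ).card := by
  classical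
  have hch := charP_alg (k := k) (p := p) M
  have hp := (Fact.out : p.Prime)
  obtain ⟨i, hi⟩ := Function.ne_iff.1 hτ
  change RT τ i ≠ 0 at hi
  set u : Fin n → ZMod p := Pi.single i (RT τ i)⁻¹ with hu
  have hu1 : ∀ c : ZMod p, ∑ j, RT τ j * (c • u) j = c := by
    intro c
    rw [Finset.sum_eq_single i]
    · rw [hu, Pi.smul_apply, Pi.single_eq_same, smul_eq_mul]
      field_simp
    · intro j _ hj
      rw [hu, Pi.smul_apply, Pi.single_eq_of_ne hj, smul_zero, mul_zero]
    · intro h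
      exact absurd (Finset.mem_univ i) h
  set e := ec (RT τ) z with he
  have hee : e ^ p - e = algebraMap N M f := by rw [hB, he, D.ec_eq]
  have hfM : algebraMap N M f ≠ 0 := (map_ne_zero _).2 hf
  have hcp : ∀ c : ZMod p, (c.cast : M) ^ p = c.cast := fun c => cast_pow_p c
  have hfac : ∀ c : ZMod p, algebraMap N M f =
      (e - c.cast) * ((e - c.cast) ^ (p - 1) - 1) := by
    intro c
    have h1 : (e - (c.cast : M)) ^ p = e ^ p - c.cast := by
      rw [sub_pow_char, hcp]
    have h2 : (e - (c.cast : M)) * (e - c.cast) ^ (p - 1) = (e - c.cast) ^ p := by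
      rw [← pow_succ', Nat.sub_add_cancel hp.one_lt.le]
    rw [mul_sub, h2, h1, ← hee]
    ring
  have hF0 : ∀ c : ZMod p, e - (c.cast : M) ≠ 0 := by
    intro c h0
    have := hfac c
    rw [h0, zero_mul] at this
    exact hfM this
  have hcast : ∀ (v : Place (RatFunc k) M) (c : ZMod p), (c.cast : M) ∈ v.ring ∧
      v.res (c.cast : M) = (c.cast : v.resField) := fun v c => Helper84.KL.cast_mem_res v c
  -- the residue of `e`
  have hres : ∀ (v : Place (RatFunc k) M) (c : ZMod p), Good p b r (IT τ) (spec v z) →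
      (v.ord (e - c.cast) ≠ 0 ↔ ec (RT τ) (spec v z) = c.cast) := by
    intro v c hG
    obtain ⟨h1, h2⟩ := D.ec_spec hG
    have h3 : e - (c.cast : M) ∈ v.ring := sub_mem h1 (hcast v c).1
    have h4 : v.res (e - c.cast) = ec (RT τ) (spec v z) - c.cast := by
      rw [v.res_sub h1 (hcast v c).1, (hcast v c).2, h2]
    rw [← sub_eq_zero, ← h4, v.res_eq_zero_iff h3, Ne, v.ord_eq_zero_iff (hF0 c)]
    exact ⟨fun h => lt_of_le_of_ne h3 h, fun h => h.ne⟩
  refine D.rel_image hS hEF hf hSm Finset.univ (fun c => e - c.cast) (fun c => (1 - c) • u)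
    (fun c _ => hF0 c) ?_ ?_
  · intro c _ v hv hG
    have h1 := (hres v c hG).1 hv
    obtain ⟨h2, h3⟩ := D.ec_spec hG
    have h4 : e - (c.cast : M) ∈ v.ring := sub_mem h2 (hcast v c).1
    have h5 : v.res (e - c.cast) = 0 := by
      rw [v.res_sub h2 (hcast v c).1, (hcast v c).2, ← h3, h1, sub_self]
    have hp1 : p - 1 ≠ 0 := by
      have := hp.one_lt
      omega
    have h6 : (e - (c.cast : M)) ^ (p - 1) - 1 ∈ v.ring := sub_mem (pow_mem h4 _) (one_mem _)
    have h7 : v.res ((e - (c.cast : M)) ^ (p - 1) - 1) = -1 := by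
      rw [v.res_sub (pow_mem h4 _) (one_mem _), v.res_pow h4, h5, zero_pow hp1, v.res_one,
        zero_sub]
    have h8 : (e - (c.cast : M)) ^ (p - 1) - 1 ≠ 0 := by
      intro h0
      rw [h0, v.res_zero] at h7
      exact one_ne_zero (neg_eq_zero.1 h7.symm)
    have h9 : v.ord ((e - (c.cast : M)) ^ (p - 1) - 1) = 0 := by
      rw [v.ord_eq_zero_iff h8]
      refine le_antisymm h6 ?_
      by_contra hlt
      rw [not_le, ← v.res_eq_zero_iff h6, h7] at hlt
      exact one_ne_zero (neg_eq_zero.1 hlt)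
    refine ⟨?_, ?_, ?_⟩
    · rw [hfac c, v.ord_mul (hF0 c) h8, h9, add_zero]
    · rw [(D.Bc_spec hG).2, ← hB, hfac c, v.res_mul h4 h6, h5, zero_mul]
    · have h10 := charP_alg (k := k) (p := p) v.resField
      rw [Helper57.KL.Good.ec_tr hG D.hb (fun i hi => RT_of_notMem hi), hu1, h1,
        ← ZMod.cast_add (dvd_refl p), add_sub_cancel, ZMod.cast_one (dvd_refl p)]
  · intro v hG hv hBc
    have h10 := charP_alg (k := k) (p := p) v.resField
    have h1 := as_eq hG.mem D.hb (RT τ)
    rw [D.Xc_spec hG, hBc, mul_zero, add_zero] at h1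
    obtain ⟨c, hc⟩ := Helper33.KL.exists_cast (p := p) (u := ec (RT τ) (spec v z)) (w := 0) (by
      rw [h1, zero_pow hp.ne_zero, sub_zero])
    rw [zero_add] at hc
    refine ⟨c, Finset.mem_univ _, (hres v c hG).2 hc, fun c' _ hc' => ?_⟩
    have h2 := (hres v c' hG).1 hc'
    rw [hc] at h2
    exact ((ZMod.castHom (dvd_refl p) v.resField).injective h2).symm

end main

/-- **KL-12.** -/
theorem modPsi_of (hb : ∀ i, b i ≠ 0) (τ : Fin n → Option (ZMod p)) (hS : ModS k p b r)
    (hEF : StEF) (hExt : StExt k p b τ) : ModPsi k p b r τ := by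
  refine ⟨Psi k p b r τ, ?_, ?_⟩
  · intro N _ _ _ _ z hz hV hX hB he
    exact Psi_first hb hS τ hz hV hX hB he
  · intro c hc
    have hle : Helper1.KL.rat (YV b τ)
        (fun N _ _ x f => YV b τ N x ∨ (AV (k := k) τ N x ∧ f = Bfun b τ x)) r ≤
        (GG p b r (IT τ).card).comap (Psi k p b r τ) := by
      refine Submodule.span_le.2 ?_
      rintro _ ⟨N, _, _, x, f, S, hN, htr, hP, hf, hSm, rfl⟩
      rw [SetLike.mem_coe, Submodule.mem_comap]
      by_cases hτ : RT τ = 0
      · rw [map_sum]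
        refine sum_mem fun w _ => ?_
        rw [Psi_single, psi_eq_zero hτ, smul_zero]
        exact zero_mem _
      have hAV : AV (k := k) τ N x := by
        rcases hP with h | h
        · exact h.1
        · exact h.1
      obtain ⟨L, M, _, _, _, _, _, _, _, _, _, _, _, _, _, _, _, _, _, _, z, hT, htop, hM, htrM,
        hz, hxz, hy, he⟩ := hExt N x r hN htr hAV hτ
      have D : Dt b r τ N L M x z := ⟨hb, hT, htop, htr, hM, htrM, hz, hxz, hAV⟩
      by_cases hB : Bfun b τ x = 0
      · exact D.rel_Y hS hEF hf hSm hB (he hB)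
      · rcases hP with h | h
        · exact absurd h.2 hB
        · exact D.rel_B hS hEF hτ hf hSm h.2
    exact hle hc

end Pool.Agent.Helper16.KLP
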