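import Pool.Agent.Helper16.KL.Pts

set_option autoImplicit false
set_option linter.unusedSectionVars false
set_option linter.style.haveILetI false

/-!
Project KL, KL-12: the image of a relation.
-/

namespace Pool.Agent.Helper16.KLP

open Pool.Agent.Helper16 Pool.Agent.HC Pool.Agent.Helper1.KL

theorem exists_ord_one {K N : Type} [Field K] [Field N] [Algebra K N] (w : Place K N) :
    ∃ a : N, a ≠ 0 ∧ w.ord a = 1 := by
  obtain ⟨a, ha⟩ := w.surj (WithZero.exp (-1 : ℤ))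
  refine ⟨a, ?_, ?_⟩
  · rintro rfl
    rw [map_zero] at ha
    exact WithZero.exp_ne_zero ha.symm
  · unfold Place.ord
    rw [ha, WithZero.log_exp, neg_neg]

/-- A place lies above one place only. -/
theorem above_unique {K L M : Type} [Field K] [Field L] [Field M] [Algebra K L] [Algebra K M]
    [Algebra L M] {w w' : Place K L} {v : Place K M} {m m' : ℕ} (h : Above w v m)
    (h' : Above w' v m') : w = w' := by
  obtain ⟨a, -, ha⟩ := exists_ord_one w
  obtain ⟨a', -, ha'⟩ := exists_ord_one w'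
  have h1 : (m : ℤ) = m' * w'.ord a := by rw [← h'.2 a, h.2 a, ha, mul_one]
  have h2 : (m' : ℤ) = m * w.ord a' := by rw [← h.2 a', h'.2 a', ha', mul_one]
  have h3 : m = m' := Nat.dvd_antisymm (by exact_mod_cast Dvd.intro _ h2.symm)
    (by exact_mod_cast Dvd.intro _ h1.symm)
  subst h3
  apply Helper73.KL.place_ext
  intro c
  have h4 : (m : ℤ) * w.ord c = m * w'.ord c := by rw [← h.2 c, h'.2 c]
  exact mul_left_cancel₀ (by exact_mod_cast h.1.ne') h4

variable {k : Type} [Field k] {p : ℕ} [Fact p.Prime] [CharP k p] {n : ℕ} {b : Fin n → k} {r : ℕ}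

/-- A relation, with the terms which are not good removed. -/
theorem rel_good (hb : ∀ i, b i ≠ 0) {M : Type} [Field M] [Algebra (RatFunc k) M]
    (hM : Algebra.EssFiniteType (RatFunc k) M) (htr : Algebra.trdeg (RatFunc k) M = r + 1)
    {z : Fin n ⊕ Fin n → Option M} (hz : XV p b M z) {I : Finset (Fin n)}
    (hinf : ∀ i ∉ I, z (Sum.inl i) = none) {f : M} (hf : f ≠ 0) (ρ h : Fin n → ZMod p) :
    ∃ G : Finset (Place (RatFunc k) M), (∀ v, v ∈ G ↔ v.ord f ≠ 0 ∧ Good p b r I (spec v z)) ∧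
      ∑ v ∈ G, ((v.ord f * Module.finrank (fld (RatFunc k) (spec v z)) v.resField : ℤ) : ℚ) •
        SS p b r ρ (tr h (spec v z)) ∈ GG p b r I.card := by
  classical
  obtain ⟨S, hS, -, hsum⟩ := Helper26.KL.rel_SH (r := r) hM htr
    (Helper57.KL.XV_tr_of h hz) hf (perp ρ)
  have hS' : ∀ v, v ∈ S ↔ v.ord f ≠ 0 ∧
      Algebra.trdeg (RatFunc k) (fld (RatFunc k) (spec v z)) = r := by
    intro v
    rw [hS, Helper57.KL.spec_tr, Helper57.KL.fld_tr]
  have hsum' : ∑ v ∈ S,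
      ((v.ord f * Module.finrank (fld (RatFunc k) (spec v z)) v.resField : ℤ) : ℚ) •
        SS p b r ρ (tr h (spec v z)) = 0 := by
    rw [← hsum]
    refine Finset.sum_congr rfl fun v _ => ?_
    rw [Helper57.KL.spec_tr, Helper57.KL.fld_tr]
  clear hS hsum
  refine ⟨S.filter fun v => Good p b r I (spec v z), fun v => ?_, ?_⟩
  · rw [Finset.mem_filter, hS']
    exact ⟨fun h => ⟨h.1.1, h.2⟩, fun h => ⟨⟨h.1, h.2.dim⟩, h.2⟩⟩
  · rw [← Finset.sum_filter_add_sum_filter_not S (fun v => Good p b r I (spec v z))] at hsum'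
    rw [eq_neg_of_add_eq_zero_left hsum']
    refine neg_mem (sum_mem fun v hv => Submodule.smul_mem _ _ ?_)
    rw [Finset.mem_filter, hS'] at hv
    have h1 := Helper84.KL.good_or_GG (r := r) (I := I) (b := b) (p := p) v
      (z := tr h z) (fun i hi => hinf i hi)
      (by rw [Helper57.KL.spec_tr]; exact Helper57.KL.XV_tr_of h (Helper26.KL.XV_spec v hz))
      (by rw [Helper57.KL.spec_tr, Helper57.KL.fld_tr]; exact hv.1.2)
    rw [Helper57.KL.spec_tr] at h1
    rcases h1 with h1 | h1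
    · exfalso
      have := charP_alg (k := k) (p := p) v.resField
      have h2 := Helper57.KL.Good.tr h1 (-h)
      rw [Helper57.KL.tr_neg_tr] at h2
      exact hv.2 h2
    · exact h1 (perp ρ)

section main

variable {N L M : Type} [Field N] [Field L] [Field M]
  [Algebra k N] [Algebra k L] [Algebra k M] [Algebra N L] [Algebra N M] [Algebra L M]
  [Algebra (RatFunc k) L] [Algebra (RatFunc k) M] [IsScalarTower k N L]
  [IsScalarTower k (RatFunc k) L] [IsScalarTower k N M] [IsScalarTower k (RatFunc k) M]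
  [IsScalarTower N L M] [IsScalarTower (RatFunc k) L M] [IsScalarTower k L M]
  [FiniteDimensional L M] [Algebra.IsSeparable L M]
  {τ : Fin n → Option (ZMod p)} {x : Fin n → Option N} {z : Fin n ⊕ Fin n → Option M}

theorem ord_of_above {w : Place k N} {g : Place (RatFunc k) L} {v : Place (RatFunc k) M} {e : ℕ}
    (h1 : Gs w g) (h2 : Above g v e) (a : N) :
    v.ord (algebraMap N M a) = e * w.ord a := by
  rw [IsScalarTower.algebraMap_apply N L M, h2.2]
  unfold Place.ord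
  rw [h1.1]

/-- The image of a relation, from relations on `X`. -/
theorem Dt.rel_image (D : Dt b r τ N L M x z) (hS : ModS k p b r) (hEF : StEF) {f : N}
    (hf : f ≠ 0) {S : Finset (Place k N)}
    (hSm : ∀ w, w ∈ S ↔ w.ord f ≠ 0 ∧ YV b τ w.resField (spec w x) ∧
      Algebra.trdeg k (fld k (spec w x)) = r)
    (C : Finset (ZMod p)) (F : ZMod p → M) (h : ZMod p → Fin n → ZMod p)
    (hF0 : ∀ c ∈ C, F c ≠ 0)
    (hC1 : ∀ c ∈ C, ∀ v : Place (RatFunc k) M, v.ord (F c) ≠ 0 →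
      Good p b r (IT τ) (spec v z) → v.ord (F c) = v.ord (algebraMap N M f) ∧
        Bc b (RT τ) (spec v z) = 0 ∧ ec (RT τ) (tr (h c) (spec v z)) = 1)
    (hC2 : ∀ v : Place (RatFunc k) M, Good p b r (IT τ) (spec v z) →
      v.ord (algebraMap N M f) ≠ 0 → Bc b (RT τ) (spec v z) = 0 →
      ∃ c ∈ C, v.ord (F c) ≠ 0 ∧ ∀ c' ∈ C, v.ord (F c') ≠ 0 → c' = c) :
    Psi k p b r τ (∑ w ∈ S, Finsupp.single (key k (spec w x))
      ((w.ord f * Module.finrank (fld k (spec w x)) w.resField : ℤ) : ℚ)) ∈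
        GG p b r (IT τ).card := by
  classical
  have hex := fun w : Place k N => exists_gaussPlace D.hT D.htop w
  choose g hg1 hg2 using hex
  have hgs : ∀ w, Gs w (g w) := fun w => ⟨hg1 w, hg2 w⟩
  choose T e hT1 hT2 hT3 using fun w : Place k N => hEF (RatFunc k) L M (g w)
  have hfM : algebraMap N M f ≠ 0 := (map_ne_zero _).2 hf
  choose! G hG hGW using fun c (hc : c ∈ C) => rel_good (r := r) D.hb D.hM D.htrM D.hz
    (I := IT τ) (fun i hi => D.inf hi) (hF0 c hc) (RT τ) (h c)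
  -- points of the relations on `X`
  have hw : ∀ v, (∃ c ∈ C, v ∈ G c) → ∃ w ∈ S, v ∈ T w := by
    rintro v ⟨c, hc, hv⟩
    obtain ⟨hv1, hv2⟩ := (hG c hc v).1 hv
    obtain ⟨h1, h2, -⟩ := hC1 c hc v hv1 hv2
    rw [h1] at hv1
    obtain ⟨w, g', e', h3, h4, h5, h6⟩ := D.exists_w hv2
      ⟨f, hf, fun h0 => hv1 ((v.ord_eq_zero_iff hfM).2 h0)⟩
    have hgg : g w = g' := gauss_unique D.hT D.htop w (g w) g' (hg2 w) h3.2
    refine ⟨w, (hSm w).2 ⟨?_, ⟨h6, ?_⟩, h5⟩, (hT1 w v).2 ⟨e', by rw [hgg]; exact h4⟩⟩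
    · intro h0
      rw [ord_of_above h3 h4, h0, mul_zero] at hv1
      exact hv1 rfl
    · obtain ⟨⟨φ, hφ⟩, -, -⟩ :=
        Helper73.KL.stPt k (Fin n) N L M r x w g' v e' D.hT D.htop D.htrN h3 h4 h5
      rw [← D.xpt_spec v] at hφ
      have h7 := Bfun_eq (b := b) τ (spec v z)
      rw [hφ, Bfun_map, h2, map_eq_zero] at h7
      exact h7
  -- points above the places of `S`
  have hc : ∀ w ∈ S, ∀ v ∈ T w, Good p b r (IT τ) (spec v z) ∧ Vert k r (spec v z) ∧
      key k (xpt (spec v z)) = key k (spec w x) ∧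
      Module.finrank (fld (RatFunc k) (xpt (spec v z))) v.resField =
        Module.finrank (resL (RatFunc k) L v) v.resField *
          Module.finrank (fld k (spec w x)) w.resField ∧
      v.ord (algebraMap N M f) = e w v * w.ord f ∧ Bc b (RT τ) (spec v z) = 0 := by
    intro w hwS v hv
    obtain ⟨h1, h2, h3⟩ := (hSm w).1 hwS
    have h4 := hT2 w v hv
    obtain ⟨h5, h6, h7, h8⟩ := D.good_of_above (hgs w) h4 h3 h2.1
    refine ⟨h5, h6, h7, h8, ord_of_above (hgs w) h4 f, ?_⟩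
    obtain ⟨⟨φ, hφ⟩, -, -⟩ :=
      Helper73.KL.stPt k (Fin n) N L M r x w (g w) v (e w v) D.hT D.htop D.htrN (hgs w) h4 h3
    rw [← D.xpt_spec v] at hφ
    rw [← Bfun_eq (b := b) τ (spec v z), hφ, Bfun_map, h2.2, map_zero]
  have hcC : ∀ w ∈ S, ∀ v ∈ T w, ∃ c ∈ C, v ∈ G c ∧ ∀ c' ∈ C, v ∈ G c' → c' = c := by
    intro w hwS v hv
    obtain ⟨h1, h2, h3, h4, h5, h6⟩ := hc w hwS v hv
    have h7 : v.ord (algebraMap N M f) ≠ 0 := by
      rw [h5]
      exact mul_ne_zero (by exact_mod_cast (hT2 w v hv).1.ne') ((hSm w).1 hwS).1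
    obtain ⟨c, hcC, h8, h9⟩ := hC2 v h1 h7 h6
    exact ⟨c, hcC, (hG c hcC v).2 ⟨h8, h1⟩, fun c' hc' h10 => h9 c' hc' ((hG c' hc' v).1 h10).1⟩
  have hTdisj : ∀ w ∈ S, ∀ w' ∈ S, ∀ v, v ∈ T w → v ∈ T w' → w = w' := by
    intro w _ w' _ v hv hv'
    have h1 : g w = g w' := above_unique (hT2 w v hv) (hT2 w' v hv')
    apply Place.ext_val
    ext a
    rw [← (hgs w).1 a, ← (hgs w').1 a, h1]
  choose wf hwfS hwfT using hw
  set A : Place k N → Place (RatFunc k) M → QX p b r := fun w v =>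
    (((e w v * Module.finrank (resL (RatFunc k) L v) v.resField : ℕ) : ℚ) *
      ((w.ord f * Module.finrank (fld k (spec w x)) w.resField : ℤ) : ℚ)) •
        psi k p b r τ (key k (spec w x)) with hA
  have hsum : ∑ q ∈ C.sigma G,
      ((q.2.ord (F q.1) * Module.finrank (fld (RatFunc k) (spec q.2 z)) q.2.resField : ℤ) : ℚ) •
        SS p b r (RT τ) (tr (h q.1) (spec q.2 z)) = ∑ q ∈ S.sigma T, A q.1 q.2 := by
    refine Finset.sum_bij (fun q hq => (⟨wf q.2 ⟨q.1, Finset.mem_sigma.1 hq⟩, q.2⟩ :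
      Σ _ : Place k N, Place (RatFunc k) M)) ?_ ?_ ?_ ?_
    · intro q hq
      exact Finset.mem_sigma.2 ⟨hwfS _ _, hwfT _ _⟩
    · rintro ⟨c, v⟩ hq ⟨c', v'⟩ hq' heq
      have hvv : v = v' := by
        have := congrArg Sigma.snd heq
        exact this
      subst hvv
      obtain ⟨h1, h2⟩ := Finset.mem_sigma.1 hq
      obtain ⟨h1', h2'⟩ := Finset.mem_sigma.1 hq'
      obtain ⟨c0, -, -, h3⟩ := hcC _ (hwfS v ⟨c, h1, h2⟩) v (hwfT v ⟨c, h1, h2⟩)
      have h4 : c = c' := (h3 c h1 h2).trans (h3 c' h1' h2').symm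
      subst h4
      rfl
    · rintro ⟨w, v⟩ hq
      obtain ⟨h1, h2⟩ := Finset.mem_sigma.1 hq
      obtain ⟨c, hcC', h3, -⟩ := hcC w h1 v h2
      have hq' : (⟨c, v⟩ : Σ _ : ZMod p, Place (RatFunc k) M) ∈ C.sigma G :=
        Finset.mem_sigma.2 ⟨hcC', h3⟩
      refine ⟨⟨c, v⟩, hq', ?_⟩
      have h4 := hTdisj _ (hwfS v ⟨c, hcC', h3⟩) w h1 v (hwfT v ⟨c, hcC', h3⟩) h2
      simp only [h4]
    · rintro ⟨c, v⟩ hq
      obtain ⟨h1, h2⟩ := Finset.mem_sigma.1 hq
      have hex : ∃ c ∈ C, v ∈ G c := ⟨c, h1, h2⟩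
      obtain ⟨h3, h4, h5, h6, h7, -⟩ := hc _ (hwfS v hex) v (hwfT v hex)
      obtain ⟨h8, h9⟩ := (hG c h1 v).1 h2
      obtain ⟨h10, -, h11⟩ := hC1 c h1 v h8 h9
      have h12 := SS_eq_psi D.hb hS (Helper57.KL.Good.tr h9 (h c)) h4 h11
      rw [Helper57.KL.xpt_tr, h5] at h12
      have h13 := finrank_mul_rel (k := k) h11
      rw [Helper57.KL.fld_tr, Helper57.KL.xpt_tr, h6] at h13
      change ((v.ord (F c) * Module.finrank (fld (RatFunc k) (spec v z)) v.resField : ℤ) : ℚ) •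
        SS p b r (RT τ) (tr (h c) (spec v z)) = A (wf v hex) v
      rw [h12, hA, smul_smul, h10, h7]
      congr 1
      rw [Helper57.KL.fld_tr]
      have h14 : ((Module.finrank (fld (RatFunc k) (spec v z)) v.resField : ℕ) : ℚ) *
          (((fld (RatFunc k) (red (RT τ) (tr (h c) (spec v z)))).relfinrank
            (fld (RatFunc k) (spec v z)) : ℕ) : ℚ) =
          ((Module.finrank (resL (RatFunc k) L v) v.resField : ℕ) : ℚ) *
          ((Module.finrank (fld k (spec (wf v hex) x)) (wf v hex).resField : ℕ) : ℚ) := by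
        exact_mod_cast h13
      push_cast
      linear_combination ((e (wf v hex) v : ℚ) * ((wf v hex).ord f : ℚ)) * h14
  have hmem : ∑ q ∈ S.sigma T, A q.1 q.2 ∈ GG p b r (IT τ).card := by
    rw [← hsum, Finset.sum_sigma]
    exact sum_mem fun c hc => hGW c hc
  rw [Finset.sum_sigma] at hmem
  have hfin : ∀ w ∈ S, ∑ v ∈ T w, A w v = ((Module.finrank L M : ℕ) : ℚ) •
      (((w.ord f * Module.finrank (fld k (spec w x)) w.resField : ℤ) : ℚ) •
        psi k p b r τ (key k (spec w x))) := by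
    intro w _
    rw [← hT3 w, hA, smul_smul]
    simp only
    rw [← Finset.sum_smul, ← Finset.sum_mul]
    push_cast
    rfl
  rw [Finset.sum_congr rfl hfin, ← Finset.smul_sum] at hmem
  have hpos : ((Module.finrank L M : ℕ) : ℚ) ≠ 0 := by
    exact_mod_cast (Module.finrank_pos (R := L) (M := M)).ne'
  have h1 := Submodule.smul_mem (GG p b r (IT τ).card) ((Module.finrank L M : ℕ) : ℚ)⁻¹ hmem
  rw [smul_smul, inv_mul_cancel₀ hpos, one_smul] at h1
  rw [map_sum]
  have h2 : ∀ w ∈ S, Psi k p b r τ (Finsupp.single (key k (spec w x))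
      ((w.ord f * Module.finrank (fld k (spec w x)) w.resField : ℤ) : ℚ)) =
      ((w.ord f * Module.finrank (fld k (spec w x)) w.resField : ℤ) : ℚ) •
        psi k p b r τ (key k (spec w x)) := fun w _ => Psi_single _ _ _
  rw [Finset.sum_congr rfl h2]
  exact h1

end main

end Pool.Agent.Helper16.KLP
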