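import Pool.Agent.Helper16.KL.Main
import Pool.Agent.Helper26.KL.Ext
import Pool.Agent.Helper41.KL.EF
import Pool.Agent.Helper78.KL.Lift

set_option autoImplicit false

/-!
Project KL, KL-12: the final statement.
-/

namespace Pool.Agent.Helper16.KLP

open Pool.Agent.Helper1.KL

/-- **KL-12.** -/
theorem modPsi (k : Type) [Field k] (p : ℕ) [Fact p.Prime] [CharP k p] {n : ℕ} (b : Fin n → k)
    (r : ℕ) (hb : ∀ i, b i ≠ 0) (τ : Fin n → Option (ZMod p)) : ModPsi k p b r τ :=
  modPsi_of hb τ (Helper33.KL.modS k p b r hb) Helper41.KL.stEF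
    (Helper26.KL.stExt (Helper78.KL.modLift k p b) τ)

end Pool.Agent.Helper16.KLP
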