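import Pool.Agent.Helper1.KL.Stmts
import Pool.Agent.HC.GaussR
import Pool.Agent.HC.GaussF

set_option autoImplicit false

/-!
Project KL, KL-12: definitions and statements of the parts.
-/

namespace Pool.Agent.Helper16.KLP

open Pool.Agent.Helper16 Pool.Agent.HC Pool.Agent.Helper1.KL

section Above

variable {K L M : Type} [Field K] [Field L] [Field M] [Algebra K L] [Algebra K M] [Algebra L M]

/-- The place `v` of `M` lies above the place `w` of `L`, with ramification index `e`. -/
def Above (w : Place K L) (v : Place K M) (e : ℕ) : Prop :=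
  0 < e ∧ ∀ a : L, v.ord (algebraMap L M a) = (e : ℤ) * w.ord a

/-- The residue field of `L` in the residue field of `v`. -/
noncomputable def resL (K L : Type) {M : Type} [Field K] [Field L] [Field M] [Algebra K L]
    [Algebra K M] [Algebra L M] (v : Place K M) : IntermediateField K v.resField :=
  IntermediateField.adjoin K (Set.range fun a : {a : L // v.val (algebraMap L M a) ≤ 1} =>
    v.res (algebraMap L M (a : L)))

end Above

/-- KL-12-1. The places above a place, and the fundamental identity. -/
def StEF : Prop :=
  ∀ (K L M : Type) [Field K] [Field L] [Field M] [Algebra K L] [Algebra K M] [Algebra L M]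
    [IsScalarTower K L M] [FiniteDimensional L M] [Algebra.IsSeparable L M] (w : Place K L),
    ∃ (S : Finset (Place K M)) (e : Place K M → ℕ), (∀ v, v ∈ S ↔ ∃ m, Above w v m) ∧
      (∀ v ∈ S, Above w v (e v)) ∧
      ∑ v ∈ S, e v * Module.finrank (resL K L v) v.resField = Module.finrank L M

/-- KL-12-2. The restriction of a place. -/
def StRes : Prop :=
  ∀ (K L M : Type) [Field K] [Field L] [Field M] [Algebra K L] [Algebra K M] [Algebra L M]
    [IsScalarTower K L M] [Algebra.IsAlgebraic L M] (v : Place K M),
    ∃ (w : Place K L) (e : ℕ), Above w v e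

/-- `g` is the Gauss extension of `w` to `L = N(t)`. -/
def Gs {k N L : Type} [Field k] [Field N] [Field L] [Algebra k N] [Algebra k L] [Algebra N L]
    [Algebra (RatFunc k) L] (w : Place k N) (g : Place (RatFunc k) L) : Prop :=
  (∀ a : N, g.val (algebraMap N L a) = w.val a) ∧
    ∀ P : Polynomial N, g.val (Polynomial.aeval (tv k L) P) = gv w.val P

/-- The image of a point. -/
def mp {N M σ : Type} [Field N] [Field M] [Algebra N M] (x : σ → Option N) : σ → Option M :=
  fun i => (x i).map (algebraMap N M)

/-- KL-12-3. The places of `M`, algebraic over `L = N(t)`, at which the point `x` with coordinates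
in `N` has dimension `r`. -/
def StPl (k : Type) [Field k] (σ : Type) : Prop :=
  ∀ (N L M : Type) [Field N] [Field L] [Field M] [Algebra k N] [Algebra k L] [Algebra k M]
    [Algebra N L] [Algebra N M] [Algebra L M] [Algebra (RatFunc k) L] [Algebra (RatFunc k) M]
    [IsScalarTower k N L] [IsScalarTower k (RatFunc k) L] [IsScalarTower k N M]
    [IsScalarTower k (RatFunc k) M] [IsScalarTower N L M] [IsScalarTower (RatFunc k) L M]
    [IsScalarTower k L M] [Algebra.IsAlgebraic L M] (r : ℕ) (x : σ → Option N)
    (v : Place (RatFunc k) M),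
    Transcendental N (tv k L) → IntermediateField.adjoin N {tv k L} = ⊤ →
    Algebra.trdeg k N = r + 1 → (∃ a : N, a ≠ 0 ∧ v.val (algebraMap N M a) ≠ 1) →
    Algebra.trdeg (RatFunc k) (fld (RatFunc k) (spec v (mp (M := M) x))) = r →
    ∃ (w : Place k N) (g : Place (RatFunc k) L) (e : ℕ), Gs w g ∧ Above g v e ∧
      Algebra.trdeg k (fld k (spec w x)) = r

/-- KL-12-4. The point at a place above a Gauss place. -/
def StPt (k : Type) [Field k] (σ : Type) : Prop :=
  ∀ (N L M : Type) [Field N] [Field L] [Field M] [Algebra k N] [Algebra k L] [Algebra k M]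
    [Algebra N L] [Algebra N M] [Algebra L M] [Algebra (RatFunc k) L] [Algebra (RatFunc k) M]
    [IsScalarTower k N L] [IsScalarTower k (RatFunc k) L] [IsScalarTower k N M]
    [IsScalarTower k (RatFunc k) M] [IsScalarTower N L M] [IsScalarTower (RatFunc k) L M]
    [IsScalarTower k L M] [Algebra.IsAlgebraic L M] (r : ℕ) (x : σ → Option N)
    (w : Place k N) (g : Place (RatFunc k) L) (v : Place (RatFunc k) M) (e : ℕ),
    Transcendental N (tv k L) → IntermediateField.adjoin N {tv k L} = ⊤ →
    Algebra.trdeg k N = r + 1 → Gs w g → Above g v e →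
    Algebra.trdeg k (fld k (spec w x)) = r →
    (∃ φ : w.resField →ₐ[k] v.resField, spec v (mp (M := M) x) = fun i => (spec w x i).map φ) ∧
    Algebra.trdeg (RatFunc k) (fld (RatFunc k) (spec v (mp (M := M) x))) = r ∧
    Module.finrank (fld (RatFunc k) (spec v (mp (M := M) x))) v.resField =
      Module.finrank (resL (RatFunc k) L v) v.resField *
        Module.finrank (fld k (spec w x)) w.resField

end Pool.Agent.Helper16.KLP
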