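import Pool.Agent.Helper16.KL.P0

set_option autoImplicit false

/-!
Project KL, KL-12: further statements of parts.
-/

namespace Pool.Agent.Helper16.KLP

open Pool.Agent.Helper16 Pool.Agent.HC Pool.Agent.Helper1.KL

/-- KL-12-5. For a point `x` of `AV` over `N` there is a finite separable extension `M` of
`L = N(t)` with a point `z` of `X` with the coordinates `x`. -/
def StExt (k : Type) [Field k] (p : ℕ) [Fact p.Prime] {n : ℕ} (b : Fin n → k)
    (τ : Fin n → Option (ZMod p)) : Prop :=
  ∀ (N : Type) [Field N] [Algebra k N] (x : Fin n → Option N) (r : ℕ),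
    Algebra.EssFiniteType k N → Algebra.trdeg k N = r + 1 → AV (k := k) τ N x → RT τ ≠ 0 →
    ∃ (L M : Type) (_ : Field L) (_ : Field M) (_ : Algebra k L) (_ : Algebra k M)
      (_ : Algebra N L) (_ : Algebra N M) (_ : Algebra L M) (_ : Algebra (RatFunc k) L)
      (_ : Algebra (RatFunc k) M) (_ : IsScalarTower k N L) (_ : IsScalarTower k (RatFunc k) L)
      (_ : IsScalarTower k N M) (_ : IsScalarTower k (RatFunc k) M) (_ : IsScalarTower N L M)
      (_ : IsScalarTower (RatFunc k) L M) (_ : IsScalarTower k L M)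
      (_ : FiniteDimensional L M) (_ : Algebra.IsSeparable L M)
      (z : Fin n ⊕ Fin n → Option M),
      Transcendental N (tv k L) ∧ IntermediateField.adjoin N {tv k L} = ⊤ ∧
      Algebra.EssFiniteType (RatFunc k) M ∧ Algebra.trdeg (RatFunc k) M = r + 1 ∧
      XV p b M z ∧ xpt z = mp x ∧ (∀ i ∈ IT τ, z (Sum.inr i) ≠ none) ∧
      (Bfun b τ x = 0 → ec (RT τ) z = 1)

end Pool.Agent.Helper16.KLP
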