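import Pool.Agent.Helper84.KL.Sp2
import Pool.Agent.Helper26.KL.RelSH
import Pool.Agent.Helper57.KL.Tr
import Pool.Agent.Helper33.KL.ModS
import Pool.Agent.Helper73.KL.Pl
import Pool.Agent.Helper16.KL.Psi
import Pool.Agent.Helper16.KL.P0b

set_option autoImplicit false
set_option linter.unusedSectionVars false
set_option linter.style.haveILetI false

/-!
Project KL, KL-12: points at the places above a Gauss place.
-/

namespace Pool.Agent.Helper16.KLP

open Pool.Agent.Helper16 Pool.Agent.HC Pool.Agent.Helper1.KL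

variable {k : Type} [Field k] {p : ℕ} [Fact p.Prime] [CharP k p] {n : ℕ} {b : Fin n → k} {r : ℕ}

section maps

variable {N N' : Type} [Field N] [Algebra k N] [Field N'] [Algebra k N']

theorem Bfun_map (φ : N →ₐ[k] N') (τ : Fin n → Option (ZMod p)) (x : Fin n → Option N) :
    Bfun b τ (fun i => (x i).map φ) = φ (Bfun b τ x) := by
  unfold Bfun
  rw [map_sum]
  refine Finset.sum_congr rfl fun i _ => ?_
  rw [map_mul, map_mul, map_natCast, map_inv₀, AlgHom.commutes, getD_map]

theorem AV_map (φ : N →ₐ[k] N') (τ : Fin n → Option (ZMod p)) (x : Fin n → Option N) :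
    AV (k := k) τ N' (fun i => (x i).map φ) ↔ AV (k := k) τ N x := by
  unfold AV
  refine and_congr ?_ (and_congr ?_ ?_)
  · exact forall_congr' fun i => imp_congr_right fun _ => Option.map_eq_none_iff
  · refine forall_congr' fun i => imp_congr_right fun _ => ?_
    constructor
    · rintro ⟨a, ha, h⟩
      obtain ⟨c, hc, rfl⟩ := Option.map_eq_some_iff.1 h
      exact ⟨c, fun h0 => ha (by rw [h0, map_zero]), hc⟩
    · rintro ⟨a, ha, h⟩
      exact ⟨φ a, (map_ne_zero _).2 ha, Option.map_eq_some_iff.2 ⟨a, h, rfl⟩⟩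
  · have h1 : ∑ i, (coef τ i : N') * ((x i).map φ).getD 0 =
        φ (∑ i, (coef τ i : N) * (x i).getD 0) := by
      rw [map_sum]
      refine Finset.sum_congr rfl fun i _ => ?_
      rw [map_mul, map_natCast, getD_map]
    rw [h1, map_eq_zero]

theorem YV_map (φ : N →ₐ[k] N') (τ : Fin n → Option (ZMod p)) (x : Fin n → Option N) :
    YV b τ N' (fun i => (x i).map φ) ↔ YV b τ N x := by
  unfold YV
  rw [AV_map, Bfun_map, map_eq_zero]

end maps

/-! ### The data of a relation -/

/-- The data: `x` is a point over `N`, `L = N(t)`, and `z` a point over the extension `M` of `L`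
with the coordinates `x`. -/
structure Dt {k : Type} [Field k] {p : ℕ} [Fact p.Prime] [CharP k p] {n : ℕ} (b : Fin n → k)
    (r : ℕ) (τ : Fin n → Option (ZMod p)) (N L M : Type) [Field N] [Field L] [Field M]
    [Algebra k N] [Algebra k L] [Algebra k M] [Algebra N L] [Algebra N M] [Algebra L M]
    [Algebra (RatFunc k) L] [Algebra (RatFunc k) M] (x : Fin n → Option N)
    (z : Fin n ⊕ Fin n → Option M) : Prop where
  hb : ∀ i, b i ≠ 0
  hT : Transcendental N (tv k L)
  htop : IntermediateField.adjoin N {tv k L} = ⊤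
  htrN : Algebra.trdeg k N = r + 1
  hM : Algebra.EssFiniteType (RatFunc k) M
  htrM : Algebra.trdeg (RatFunc k) M = r + 1
  hz : XV p b M z
  hxz : xpt z = mp x
  hAV : AV (k := k) τ N x

section main

variable {N L M : Type} [Field N] [Field L] [Field M]
  [Algebra k N] [Algebra k L] [Algebra k M] [Algebra N L] [Algebra N M] [Algebra L M]
  [Algebra (RatFunc k) L] [Algebra (RatFunc k) M] [IsScalarTower k N L]
  [IsScalarTower k (RatFunc k) L] [IsScalarTower k N M] [IsScalarTower k (RatFunc k) M]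
  [IsScalarTower N L M] [IsScalarTower (RatFunc k) L M] [IsScalarTower k L M]
  {τ : Fin n → Option (ZMod p)} {x : Fin n → Option N} {z : Fin n ⊕ Fin n → Option M}

theorem RT_of_notMem {i : Fin n} (hi : i ∉ IT τ) : RT τ i = 0 := by
  rw [mem_IT, not_not] at hi
  simp [RT, hi]

theorem mp_eq (x : Fin n → Option N) :
    mp (M := M) x = fun i => (x i).map (IsScalarTower.toAlgHom k N M) := rfl

theorem Dt.AVM (D : Dt b r τ N L M x z) : AV (k := k) τ M (xpt z) := by
  rw [D.hxz, mp_eq (k := k), AV_map]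
  exact D.hAV

theorem Dt.Xc_eq (D : Dt b r τ N L M x z) : Xc (RT τ) z = 0 := by
  rw [← sum_coef_eq]
  exact D.AVM.2.2

theorem Dt.Bc_eq (D : Dt b r τ N L M x z) :
    Bc b (RT τ) z = algebraMap N M (Bfun b τ x) := by
  rw [← Bfun_eq, D.hxz, mp_eq (k := k), Bfun_map]
  rfl

theorem Dt.xpt_spec (D : Dt b r τ N L M x z) (v : Place (RatFunc k) M) :
    xpt (spec v z) = spec v (mp (M := M) x) := by
  rw [← D.hxz]
  rfl

theorem Dt.inf (D : Dt b r τ N L M x z) {i : Fin n} (hi : i ∉ IT τ) : z (Sum.inl i) = none := by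
  rw [mem_IT, not_not] at hi
  exact D.AVM.1 i hi

theorem Dt.Xc_spec (D : Dt b r τ N L M x z) {v : Place (RatFunc k) M}
    (hG : Good p b r (IT τ) (spec v z)) : Xc (RT τ) (spec v z) = 0 := by
  rw [(Helper84.KL.Xc_spec v (RT τ) fun i hi => ?_).2, D.Xc_eq, v.res_zero]
  have hi' : i ∈ IT τ := by
    by_contra h
    exact hi (RT_of_notMem h)
  rw [(hG.of_mem D.hb hi').1]
  exact Option.some_ne_none _

theorem Dt.Bc_spec (D : Dt b r τ N L M x z) {v : Place (RatFunc k) M}
    (hG : Good p b r (IT τ) (spec v z)) : algebraMap N M (Bfun b τ x) ∈ v.ring ∧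
      Bc b (RT τ) (spec v z) = v.res (algebraMap N M (Bfun b τ x)) := by
  have h1 := Helper84.KL.Bc_spec (b := b) (z := z) v (RT τ) fun i hi => by
    have hi' : i ∈ IT τ := by
      by_contra h
      exact hi (RT_of_notMem h)
    exact ⟨_, (hG.of_mem D.hb hi').2.2.1, (hG.of_mem D.hb hi').1⟩
  rw [D.Bc_eq] at h1
  exact h1

theorem Dt.ec_spec (D : Dt b r τ N L M x z) {v : Place (RatFunc k) M}
    (hG : Good p b r (IT τ) (spec v z)) : ec (RT τ) z ∈ v.ring ∧
      ec (RT τ) (spec v z) = v.res (ec (RT τ) z) := by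
  refine Helper84.KL.ec_spec v (RT τ) fun i hi => ?_
  have hi' : i ∈ IT τ := by
    by_contra h
    exact hi (RT_of_notMem h)
  rw [(hG.of_mem D.hb hi').2.1]
  exact Option.some_ne_none _

theorem Dt.ec_eq (D : Dt b r τ N L M x z) :
    ec (RT τ) z ^ p - ec (RT τ) z = algebraMap N M (Bfun b τ x) := by
  rw [as_eq D.hz D.hb (RT τ), D.Xc_eq, D.Bc_eq, mul_zero, zero_add]

variable [Algebra.IsAlgebraic L M]

/-- A good point at a place which is not trivial on `N` comes from a Gauss place. -/
theorem Dt.exists_w (D : Dt b r τ N L M x z) {v : Place (RatFunc k) M}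
    (hG : Good p b r (IT τ) (spec v z)) (hnt : ∃ a : N, a ≠ 0 ∧ v.val (algebraMap N M a) ≠ 1) :
    ∃ (w : Place k N) (g : Place (RatFunc k) L) (e : ℕ), Gs w g ∧ Above g v e ∧
      Algebra.trdeg k (fld k (spec w x)) = r ∧ AV (k := k) τ w.resField (spec w x) := by
  have hr : Algebra.trdeg (RatFunc k) (fld (RatFunc k) (spec v (mp (M := M) x))) = r := by
    rw [← D.xpt_spec v, trdeg_xpt hG.mem D.hb]
    exact hG.dim
  obtain ⟨w, g, e, h1, h2, h3⟩ := Helper73.KL.stPl k (Fin n) N L M r x v D.hT D.htop D.htrN hnt hr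
  obtain ⟨⟨φ, hφ⟩, -, -⟩ :=
    Helper73.KL.stPt k (Fin n) N L M r x w g v e D.hT D.htop D.htrN h1 h2 h3
  refine ⟨w, g, e, h1, h2, h3, ?_⟩
  rw [← AV_map φ, ← hφ, ← D.xpt_spec v]
  exact AV_of_good D.hb hG (D.Xc_spec hG)

/-- The point at a place above a Gauss place. -/
theorem Dt.good_of_above (D : Dt b r τ N L M x z) {w : Place k N} {g : Place (RatFunc k) L}
    {v : Place (RatFunc k) M} {e : ℕ} (h1 : Gs w g) (h2 : Above g v e)
    (h3 : Algebra.trdeg k (fld k (spec w x)) = r) (h4 : AV (k := k) τ w.resField (spec w x)) :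
    Good p b r (IT τ) (spec v z) ∧ Vert k r (spec v z) ∧
      key k (xpt (spec v z)) = key k (spec w x) ∧
      Module.finrank (fld (RatFunc k) (xpt (spec v z))) v.resField =
        Module.finrank (resL (RatFunc k) L v) v.resField *
          Module.finrank (fld k (spec w x)) w.resField := by
  obtain ⟨⟨φ, hφ⟩, h5, h6⟩ :=
    Helper73.KL.stPt k (Fin n) N L M r x w g v e D.hT D.htop D.htrN h1 h2 h3
  rw [← D.xpt_spec v] at hφ h5 h6
  have hXV := Helper26.KL.XV_spec v D.hz
  have hAV : AV (k := k) τ v.resField (xpt (spec v z)) := by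
    rw [hφ, AV_map]
    exact h4
  refine ⟨⟨hXV, fun i hi => ?_, fun i hi => ?_, ?_⟩, ?_, ?_, h6⟩
  · obtain ⟨a, ha, hxa⟩ := hAV.2.1 i (mem_IT.1 hi)
    rcases hXV i with ⟨-, h7⟩ | ⟨a', c, -, h7, -⟩
    · have hxa' : spec v z (Sum.inl i) = some a := hxa
      rw [hxa'] at h7
      rcases h7 with h7 | h7
      · exact (Option.some_ne_none _ h7).elim
      · exact (ha (Option.some_injective _ h7)).elim
    · rw [h7]
      exact Option.some_ne_none _
  · rw [mem_IT, not_not] at hi
    exact hAV.1 i hi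
  · rw [← trdeg_xpt hXV D.hb]
    exact h5
  · change Algebra.trdeg k (fld k (xpt (spec v z))) ≤ r
    rw [hφ, trdeg_fld_map, h3]
  · rw [hφ]
    exact key_map φ _

end main

/-- The degree over the field of the `x i` of the residue field at a point with `e = 1`. -/
theorem finrank_mul_rel {N : Type} [Field N] [Algebra k N] [Algebra (RatFunc k) N]
    [IsScalarTower k (RatFunc k) N] {z : Fin n ⊕ Fin n → Option N} {ρ : Fin n → ZMod p}
    (he : ec ρ z = 1) :
    Module.finrank (fld (RatFunc k) z) N *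
      (fld (RatFunc k) (red ρ z)).relfinrank (fld (RatFunc k) z) =
      Module.finrank (fld (RatFunc k) (xpt z)) N := by
  rw [mul_comm, IntermediateField.relfinrank_mul_finrank_top (fld_red_le ρ z), fld_red_eq he]

end Pool.Agent.Helper16.KLP
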